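import Pool.Agent.X177.AS.Geom

set_option autoImplicit false

namespace Pool.Agent.X177.AS

open Real

/-- The data of a configuration. -/
structure Data (m : ℕ) (s t : Fin 3 → ℕ) (r d : Fin 3 → ℝ) (ε δ : Fin 3 → ℤ) : Prop where
  span : ∀ j, 1 ≤ s j ∧ 2 * s j < m ∧ 1 ≤ t j ∧ 2 * t j < m
  r0 : ∀ j, 0 < r j
  d0 : ∀ j, 0 < d j
  rne : ∀ i j, i ≠ j → r i ≠ r j
  dne : ∀ i j, i ≠ j → d i ≠ d j
  hs : ∀ j, d j = r j * cos (s j * (π / m))
  ht : ∀ j, d j = r (j + 1) * cos (t j * (π / m))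
  hno : ∀ j, ∀ u : ℤ, r (j + 2) * cos (u * (π / m)) ≠ d j
  ps : ∀ j, (2 : ℤ) ∣ δ j - ε j - s j
  pt : ∀ j, (2 : ℤ) ∣ ε (j + 1) - δ j - t j

section

variable {m : ℕ} {s t : Fin 3 → ℕ} {r d : Fin 3 → ℝ} {ε δ : Fin 3 → ℤ}

/-- The incidence of a point orbit with a line, in general. -/
theorem pt_inter_ln (hm : 0 < m) {r d : ℝ} (hr : 0 < r) {s : ℕ} (hs1 : 1 ≤ s)
    (hs2 : 2 * s < m) (h : d = r * cos (s * (π / m))) {ε δ : ℤ} (hp : (2 : ℤ) ∣ δ - ε - s)
    {y : ℤ} (hy : (2 : ℤ) ∣ y - δ) :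
    Pt m r ε ∩ ln m d y = {(r : ℂ) * E m (y - s), r * E m (y + s)} ∧
      (r : ℂ) * E m (y - s) ≠ r * E m (y + s) := by
  constructor
  · ext w
    simp only [Pt, Set.mem_inter_iff, Set.mem_ofPred_eq, Set.mem_insert_iff,
      Set.mem_singleton_iff]
    constructor
    · rintro ⟨⟨x, hx, rfl⟩, hw⟩
      rw [mem_ln, h] at hw
      have h1 := mul_left_cancel₀ hr.ne' hw
      have h2 := (cos_mul_eq hm (x - y) s).1 (by exact_mod_cast h1)
      rcases h2 with h2 | h2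
      · right
        rw [rE_eq_iff hm hr]
        convert h2 using 1
        ring
      · left
        rw [rE_eq_iff hm hr]
        convert h2 using 1
        ring
    · rintro (rfl | rfl)
      · refine ⟨⟨_, ?_, rfl⟩, ?_⟩
        · obtain ⟨a, ha⟩ := hp
          obtain ⟨b, hb⟩ := hy
          exact ⟨a + b, by linarith⟩
        · rw [mem_ln, h]
          congr 1
          rw [← Real.cos_neg]
          congr 1
          push_cast
          ring
      · refine ⟨⟨_, ?_, rfl⟩, ?_⟩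
        · obtain ⟨a, ha⟩ := hp
          obtain ⟨b, hb⟩ := hy
          exact ⟨a + b + s, by linarith⟩
        · rw [mem_ln, h]
          congr 1
          congr 1
          push_cast
          ring
  · rw [Ne, rE_eq_iff hm hr]
    rintro ⟨c, hc⟩
    have h1 : (s : ℤ) = -(m * c) := by linarith
    have h3 : c = 0 := by
      by_contra hne
      rcases lt_or_gt_of_ne hne with h4 | h4
      · have : (m : ℤ) * c ≤ m * (-1) := mul_le_mul_of_nonneg_left (by omega) (by omega)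
        omega
      · have : (m : ℤ) * 1 ≤ m * c := mul_le_mul_of_nonneg_left (by omega) (by omega)
        omega
    rw [h3] at h1
    omega

/-- The lines of an orbit through a point. -/
theorem ln_through (hm : 0 < m) {r d : ℝ} (hr : 0 < r) (hd : 0 < d) {s : ℕ} (hs1 : 1 ≤ s)
    (hs2 : 2 * s < m) (h : d = r * cos (s * (π / m))) {ε δ : ℤ} (hp : (2 : ℤ) ∣ δ - ε - s)
    {x : ℤ} (hx : (2 : ℤ) ∣ x - ε) :
    {ℓ | ℓ ∈ Ln m d δ ∧ (r : ℂ) * E m x ∈ ℓ}.ncard = 2 := by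
  rw [Set.ncard_eq_two]
  refine ⟨ln m d (x - s), ln m d (x + s), ?_, ?_⟩
  · rw [Ne, ln_eq_iff hm hd]
    rintro ⟨c, hc⟩
    have h1 : (s : ℤ) = -(m * c) := by linarith
    have h3 : c = 0 := by
      by_contra hne
      rcases lt_or_gt_of_ne hne with h4 | h4
      · have : (m : ℤ) * c ≤ m * (-1) := mul_le_mul_of_nonneg_left (by omega) (by omega)
        omega
      · have : (m : ℤ) * 1 ≤ m * c := mul_le_mul_of_nonneg_left (by omega) (by omega)
        omega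
    rw [h3] at h1
    omega
  · ext ℓ
    simp only [Ln, Set.mem_ofPred_eq, Set.mem_insert_iff, Set.mem_singleton_iff]
    constructor
    · rintro ⟨⟨y, hy, rfl⟩, hw⟩
      rw [mem_ln, h] at hw
      have h1 := mul_left_cancel₀ hr.ne' hw
      have h2 := (cos_mul_eq hm (x - y) s).1 (by exact_mod_cast h1)
      rcases h2 with h2 | h2
      · left
        rw [ln_eq_iff hm hd]
        obtain ⟨c, hc⟩ := h2
        exact ⟨-c, by linarith⟩
      · right
        rw [ln_eq_iff hm hd]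
        obtain ⟨c, hc⟩ := h2
        exact ⟨-c, by linarith⟩
    · obtain ⟨a, ha⟩ := hp
      obtain ⟨b, hb⟩ := hx
      rintro (rfl | rfl)
      · refine ⟨⟨_, ⟨b - a - s, by linarith⟩, rfl⟩, ?_⟩
        rw [mem_ln, h]
        congr 1
        congr 1
        push_cast
        ring
      · refine ⟨⟨_, ⟨b - a, by linarith⟩, rfl⟩, ?_⟩
        rw [mem_ln, h]
        congr 1
        rw [← Real.cos_neg]
        congr 1
        push_cast
        ring

theorem fin3_a (j : Fin 3) : j + 2 + 1 = j := by fin_cases j <;> rfl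

theorem fin3_b (j : Fin 3) : j + 1 + 2 = j := by fin_cases j <;> rfl

/-- the action of the dihedral group -/
theorem dih_inv {f : ℂ → ℂ} (hm : 0 < m) (hf : f ∈ dih m 1) :
    ∃ g ∈ dih m 1, (∀ z, f (g z) = z) ∧ ∀ z, g (f z) = z := by
  obtain ⟨k, rfl | rfl⟩ := hf
  · have h1 : zeta m ^ k * zeta m ^ ((m - 1) * k) = 1 := by
      rw [← pow_add]
      have : k + (m - 1) * k = m * k := by
        obtain ⟨n, rfl⟩ : ∃ n, m = n + 1 := ⟨m - 1, by omega⟩
        simp only [Nat.add_sub_cancel]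
        ring
      rw [this, zeta_pow]
      rw [← E_zero (m := m), E_eq_iff hm]
      exact ⟨k, by push_cast; ring⟩
    refine ⟨fun z => zeta m ^ ((m - 1) * k) * z, ⟨_, Or.inl rfl⟩, fun z => ?_, fun z => ?_⟩
    · linear_combination z * h1
    · linear_combination z * h1
  · have h1 : zeta m ^ k * (starRingEnd ℂ) (zeta m ^ k) = 1 := by
      rw [zeta_pow, E_conj, E_mul_neg]
    refine ⟨_, ⟨k, Or.inr rfl⟩, fun z => ?_, fun z => ?_⟩
    · simp only [one_mul, map_mul, Complex.conj_conj]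
      linear_combination z * h1
    · simp only [one_mul, map_mul, Complex.conj_conj]
      linear_combination z * h1

theorem dih_E {f : ℂ → ℂ} (hf : f ∈ dih m 1) : ∃ k : ℤ,
    (∀ (r : ℝ) (x : ℤ), f (r * E m x) = r * E m (x + 2 * k)) ∧ (∀ (d : ℝ) (y : ℤ), f '' ln m d y = ln m d (y + 2 * k)) ∨
    (∀ (r : ℝ) (x : ℤ), f (r * E m x) = r * E m (2 * k - x)) ∧ (∀ (d : ℝ) (y : ℤ), f '' ln m d y = ln m d (2 * k - y)) := by
  obtain ⟨k, rfl | rfl⟩ := hf
  · refine ⟨k, Or.inl ⟨fun r x => ?_, fun d y => ?_⟩⟩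
    · simp only [zeta_pow]
      rw [E_add]
      ring
    · simp only [zeta_pow]
      exact rot_ln d y (2 * k)
  · refine ⟨k, Or.inr ⟨fun r x => ?_, fun d y => ?_⟩⟩
    · simp only [one_mul, zeta_pow, map_mul, Complex.conj_ofReal, E_conj]
      rw [sub_eq_add_neg, E_add]
      ring
    · have : (fun z : ℂ => zeta m ^ k * (1 * (starRingEnd ℂ) z)) =
          (fun z => E m (2 * k) * z) ∘ (fun z => (starRingEnd ℂ) z) := by
        funext z
        simp [zeta_pow]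
      rw [this, Set.image_comp, conj_ln, rot_ln]
      congr 1
      ring

theorem isAstral (hm : 0 < m) (h : Data m s t r d ε δ) :
    IsAstral m s t (fun j => Pt m (r j) (ε j)) (fun j => Ln m (d j) (δ j)) := by
  have hsubP : ∀ f ∈ dih m 1, ∀ j, f '' Pt m (r j) (ε j) ⊆ Pt m (r j) (ε j) := by
    rintro f hf j _ ⟨_, ⟨x, ⟨a, ha⟩, rfl⟩, rfl⟩
    obtain ⟨k, ⟨h1, -⟩ | ⟨h1, -⟩⟩ := dih_E hf
    · exact ⟨x + 2 * k, ⟨a + k, by linarith⟩, h1 _ _⟩
    · exact ⟨2 * k - x, ⟨k - a - ε j, by linarith⟩, h1 _ _⟩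
  have hsubL : ∀ f ∈ dih m 1, ∀ j, (fun ℓ => f '' ℓ) '' Ln m (d j) (δ j) ⊆ Ln m (d j) (δ j) := by
    rintro f hf j _ ⟨_, ⟨x, ⟨a, ha⟩, rfl⟩, rfl⟩
    obtain ⟨k, ⟨-, h1⟩ | ⟨-, h1⟩⟩ := dih_E hf
    · exact ⟨x + 2 * k, ⟨a + k, by linarith⟩, h1 _ _⟩
    · exact ⟨2 * k - x, ⟨k - a - δ j, by linarith⟩, h1 _ _⟩
  refine ⟨h.span, fun j => gon_Pt hm (h.r0 j) _, ?_, ?_, ?_, ?_, ?_, ?_⟩
  · rintro j _ ⟨y, _, rfl⟩
    exact isLine_ln _ _
  · intro j
    exact ⟨ncard_class hm (fun x => (r j : ℂ) * E m x) (rE_eq_iff hm (h.r0 j)) (ε j),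
      ncard_class hm (fun y => ln m (d j) y) (ln_eq_iff hm (h.d0 j)) (δ j)⟩
  · intro i j hij
    constructor
    · rw [Set.disjoint_left]
      rintro _ ⟨x, _, rfl⟩ ⟨y, _, h2⟩
      have h3 := congrArg norm h2
      rw [norm_mul, norm_mul, E_norm, E_norm, Complex.norm_real, Complex.norm_real, mul_one,
        mul_one, Real.norm_of_nonneg (h.r0 i).le, Real.norm_of_nonneg (h.r0 j).le] at h3
      exact h.rne i j hij h3
    · rw [Set.disjoint_left]
      rintro _ ⟨x, _, rfl⟩ ⟨y, _, h2⟩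
      exact h.dne i j hij (ln_inj hm (h.d0 i) (h.d0 j) h2).1
  · refine ⟨1, by simp, fun j => ⟨fun f hf => ⟨?_, ?_⟩, ?_, ?_⟩⟩
    · obtain ⟨g, hg, hfg, -⟩ := dih_inv hm hf
      refine Set.Subset.antisymm (hsubP f hf j) fun z hz => ?_
      exact ⟨g z, hsubP g hg j ⟨z, hz, rfl⟩, hfg z⟩
    · obtain ⟨g, hg, hfg, -⟩ := dih_inv hm hf
      refine Set.Subset.antisymm (hsubL f hf j) fun ℓ hℓ => ?_
      refine ⟨g '' ℓ, hsubL g hg j ⟨ℓ, hℓ, rfl⟩, ?_⟩
      simp only [Set.image_image, hfg, Set.image_id']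
    · rintro _ ⟨x, ⟨a, ha⟩, rfl⟩ _ ⟨y, ⟨b, hb⟩, rfl⟩
      have h3 := Int.emod_nonneg (b - a) (show (m : ℤ) ≠ 0 by exact_mod_cast hm.ne')
      refine ⟨_, ⟨((b - a) % m).toNat, Or.inl rfl⟩, ?_⟩
      show zeta m ^ ((b - a) % m).toNat * ((r j : ℂ) * E m x) = r j * E m y
      rw [zeta_pow, mul_left_comm, ← E_add, rE_eq_iff hm (h.r0 j), Int.toNat_of_nonneg h3]
      have h4 := Int.emod_add_mul_ediv (b - a) m
      refine ⟨-((b - a) / m), ?_⟩
      linear_combination ha - hb + 2 * h4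
    · rintro _ ⟨x, ⟨a, ha⟩, rfl⟩ _ ⟨y, ⟨b, hb⟩, rfl⟩
      have h3 := Int.emod_nonneg (b - a) (show (m : ℤ) ≠ 0 by exact_mod_cast hm.ne')
      refine ⟨_, ⟨((b - a) % m).toNat, Or.inl rfl⟩, ?_⟩
      rw [zeta_pow, rot_ln, ln_eq_iff hm (h.d0 j), Int.toNat_of_nonneg h3]
      have h4 := Int.emod_add_mul_ediv (b - a) m
      refine ⟨-((b - a) / m), ?_⟩
      linear_combination ha - hb + 2 * h4
  · rintro j _ ⟨y, hy, rfl⟩
    obtain ⟨s1, s2, t1, t2⟩ := h.span j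
    refine ⟨?_, ?_, ?_⟩
    · obtain ⟨e1, e2⟩ := pt_inter_ln hm (h.r0 j) s1 s2 (h.hs j) (h.ps j) hy
      refine ⟨?_, (r j : ℂ) * E m (y - s j), ?_⟩
      · rw [e1]
        exact Set.ncard_pair e2
      · rw [e1, zeta_pow, mul_assoc, ← E_add]
        congr 4
        ring
    · have hp : (2 : ℤ) ∣ δ j - ε (j + 1) - t j := by
        obtain ⟨a, ha⟩ := h.pt j
        exact ⟨-a - t j, by linarith⟩
      obtain ⟨e1, e2⟩ := pt_inter_ln hm (h.r0 (j + 1)) t1 t2 (h.ht j) hp hy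
      refine ⟨?_, (r (j + 1) : ℂ) * E m (y - t j), ?_⟩
      · rw [e1]
        exact Set.ncard_pair e2
      · rw [e1, zeta_pow, mul_assoc, ← E_add]
        congr 4
        ring
    · rw [Set.eq_empty_iff_forall_notMem]
      rintro _ ⟨⟨x, _, rfl⟩, hx⟩
      rw [mem_ln] at hx
      exact h.hno j _ hx
  · rintro j _ ⟨x, hx, rfl⟩
    obtain ⟨s1, s2, -, -⟩ := h.span j
    obtain ⟨-, -, t1, t2⟩ := h.span (j + 2)
    refine ⟨ln_through hm (h.r0 j) (h.d0 j) s1 s2 (h.hs j) (h.ps j) hx, ?_, ?_⟩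
    · have h1 := h.ht (j + 2)
      have h2 := h.pt (j + 2)
      rw [fin3_a] at h1 h2
      have hp : (2 : ℤ) ∣ δ (j + 2) - ε j - t (j + 2) := by
        obtain ⟨a, ha⟩ := h2
        exact ⟨-a - t (j + 2), by linarith⟩
      exact ln_through hm (h.r0 j) (h.d0 _) t1 t2 h1 hp hx
    · rw [Set.eq_empty_iff_forall_notMem]
      rintro _ ⟨⟨y, _, rfl⟩, hy⟩
      rw [mem_ln] at hy
      have h1 := h.hno (j + 1) (x - y)
      rw [fin3_b] at h1
      exact h1 hy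

end

end Pool.Agent.X177.AS
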