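import Mathlib

set_option autoImplicit false

/-!
3-astral geometric 4-configurations (problem `MP_abecca_co`). The plane is `ℂ`, the centre is `0`.
-/

namespace Pool.Agent.X177.AS

open Real

/-- The rotation by `2π/m`. -/
noncomputable def zeta (m : ℕ) : ℂ := Complex.exp (2 * π * Complex.I / m)

/-- A line of the plane. -/
def IsLine (ℓ : Set ℂ) : Prop := ∃ w v : ℂ, v ≠ 0 ∧ ℓ = {z | ∃ x : ℝ, z = w + x * v}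

/-- The elements of the dihedral group of order `2m` with centre `0` which contains the reflection
`z ↦ c * conj z`, where `|c| = 1`. -/
def dih (m : ℕ) (c : ℂ) : Set (ℂ → ℂ) :=
  {f | ∃ k : ℕ, (f = fun z => zeta m ^ k * z) ∨
    f = fun z => zeta m ^ k * (c * (starRingEnd ℂ) z)}

/-- `P 0, P 1, P 2` are the orbits of points and `L 0, L 1, L 2` the orbits of lines of a 3-astral
geometric 4-configuration with the symbol `m#(s 0, t 0; s 1, t 1; s 2, t 2)`. -/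
structure IsAstral (m : ℕ) (s t : Fin 3 → ℕ) (P : Fin 3 → Set ℂ) (L : Fin 3 → Set (Set ℂ)) :
    Prop where
  span : ∀ j, 1 ≤ s j ∧ 2 * s j < m ∧ 1 ≤ t j ∧ 2 * t j < m
  gon : ∀ j, ∃ z : ℂ, z ≠ 0 ∧ P j = {w | ∃ k : ℕ, w = z * zeta m ^ k}
  line : ∀ j, ∀ ℓ ∈ L j, IsLine ℓ
  card : ∀ j, (P j).ncard = m ∧ (L j).ncard = m
  disj : ∀ i j, i ≠ j → Disjoint (P i) (P j) ∧ Disjoint (L i) (L j)
  sym : ∃ c : ℂ, ‖c‖ = 1 ∧ ∀ j,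
    (∀ f ∈ dih m c, f '' P j = P j ∧ (fun ℓ => f '' ℓ) '' L j = L j) ∧
    (∀ x ∈ P j, ∀ y ∈ P j, ∃ f ∈ dih m c, f x = y) ∧
    (∀ ℓ ∈ L j, ∀ ℓ' ∈ L j, ∃ f ∈ dih m c, f '' ℓ = ℓ')
  on : ∀ j, ∀ ℓ ∈ L j,
    ((P j ∩ ℓ).ncard = 2 ∧ ∃ u, P j ∩ ℓ = {u, u * zeta m ^ s j}) ∧
    ((P (j + 1) ∩ ℓ).ncard = 2 ∧ ∃ u, P (j + 1) ∩ ℓ = {u, u * zeta m ^ t j}) ∧
    P (j + 2) ∩ ℓ = ∅
  through : ∀ j, ∀ x ∈ P j,
    {ℓ | ℓ ∈ L j ∧ x ∈ ℓ}.ncard = 2 ∧ {ℓ | ℓ ∈ L (j + 2) ∧ x ∈ ℓ}.ncard = 2 ∧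
    {ℓ | ℓ ∈ L (j + 1) ∧ x ∈ ℓ} = ∅

/-- The point-line incidence graph is connected (each line contains a point): any two points are
joined by a chain of points such that consecutive ones are on a common line. -/
def IsConn (P : Fin 3 → Set ℂ) (L : Fin 3 → Set (Set ℂ)) : Prop :=
  ∀ x ∈ ⋃ j, P j, ∀ y ∈ ⋃ j, P j, Relation.ReflTransGen
    (fun a b => a ∈ ⋃ j, P j ∧ b ∈ ⋃ j, P j ∧ ∃ ℓ ∈ ⋃ j, L j, a ∈ ℓ ∧ b ∈ ℓ) x y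

/-- The multiset `{s 0, s 1, s 2}`. -/
def ms (s : Fin 3 → ℕ) : Multiset ℤ := {(s 0 : ℤ), (s 1 : ℤ), (s 2 : ℤ)}

/-- The four families, with the given order of the two multisets. -/
def Fam (m : ℕ) (S T : Multiset ℤ) : Prop :=
  ∃ p q r : ℤ, 0 < p ∧ 0 < q ∧ 0 < r ∧
    (((m : ℤ) = 2 * q ∧ S = {q - p, q - 2 * r, p} ∧ T = {q - 2 * p, q - r, r}) ∨
    ((m : ℤ) = 3 * q ∧ S = {q + p, q - p, p} ∧ T = {q, q, 3 * p}) ∨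
    ((m : ℤ) = 6 * q ∧ S = {3 * q - p, r, p} ∧ T = {3 * q - 2 * p, 2 * q, r}) ∨
    ((m : ℤ) = 10 * q ∧ S = {5 * q - p, 2 * p, p} ∧ T = {|5 * q - 4 * p|, 4 * q, 2 * q}))

/-- The cohort is neither trivial nor systematic. -/
def IsSporadic (m : ℕ) (s t : Fin 3 → ℕ) : Prop :=
  ms s ≠ ms t ∧ ¬ Fam m (ms s) (ms t) ∧ ¬ Fam m (ms t) (ms s)

end Pool.Agent.X177.AS
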