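import Pool.Agent.X177.AS.Galois

set_option autoImplicit false

namespace Pool.Agent.X177.AS

open Real

theorem cos_modEq {p : ℕ} (hp : 0 < p) {x y : ℕ} (h : x ≡ y [MOD 60 * p]) :
    cos (x * (π / (30 * p : ℕ))) = cos (y * (π / (30 * p : ℕ))) := by
  have hp' : (p : ℝ) ≠ 0 := by exact_mod_cast hp.ne'
  have h1 : ((60 * p : ℕ) : ℤ) ∣ (y : ℤ) - x := Nat.modEq_iff_dvd.1 h
  obtain ⟨c, hc⟩ := h1
  have h2 : (y : ℝ) = x + (60 * p : ℕ) * c := by
    have : (y : ℤ) = x + (60 * p : ℕ) * c := by linarith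
    exact_mod_cast this
  rw [h2]
  have h3 : ((x : ℝ) + (60 * p : ℕ) * c) * (π / (30 * p : ℕ)) =
      x * (π / (30 * p : ℕ)) + c * (2 * π) := by
    push_cast
    field_simp
    ring
  rw [h3, Real.cos_add_int_mul_two_pi]

/-- Values at the multiples of `p`. -/
theorem cos_mul_p {p : ℕ} (hp : 0 < p) (a : ℕ) :
    cos ((a * p : ℕ) * (π / (30 * p : ℕ))) = cos (a * (π / 30)) := by
  have hp' : (p : ℝ) ≠ 0 := by exact_mod_cast hp.ne'
  congr 1
  push_cast
  field_simp

theorem cos_mul_pg {p : ℕ} (hp : 0 < p) (a g : ℕ) (hg : g ≡ 1 [MOD 60]) :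
    cos ((a * p : ℕ) * (g * (π / (30 * p : ℕ)))) = cos (a * (π / 30)) := by
  rw [← cos_mul_p hp, ← mul_assoc, ← Nat.cast_mul]
  refine cos_modEq hp ?_
  have h1 : a * p * g = (a * g) * p := by ring
  rw [h1]
  refine Nat.ModEq.mul_right' p ?_
  simpa using hg.mul_left a

structure Big (p : ℕ) : Prop where
  prime : p.Prime
  big : 120 < p
  h1 : cos (6 * (π / 30)) < cos (π / 30) * cos (4 * π / p)
  h2 : 3 * π / p < cos (6 * (π / 30)) * cos (10 * (π / 30))
  h3 : cos (11 * (π / 30)) < cos (π / (30 * p : ℕ)) * cos (10 * (π / 30))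

theorem cop {p g : ℕ} (hp : p.Prime) (h1 : g ≡ 1 [MOD 60]) (h2 : ¬ p ∣ g) :
    g.Coprime (2 * (30 * p)) := by
  have h3 : 2 * (30 * p) = 60 * p := by ring
  rw [h3]
  refine Nat.Coprime.mul_right ?_ ?_
  · have := h1.gcd_eq
    rw [Nat.coprime_iff_gcd_eq_one, this]
    norm_num
  · exact ((Nat.Prime.coprime_iff_not_dvd hp).2 h2).symm

theorem ex1 {p : ℕ} (hp : Big p) (u : ℕ) :
    cos (6 * (π / 30)) * cos (π / (30 * p : ℕ)) ≠
      cos (π / 30) * cos (u * (π / (30 * p : ℕ))) := by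
  intro h
  have hp0 : 0 < p := hp.prime.pos
  have hpr : (0 : ℝ) < p := by exact_mod_cast hp0
  have hp120 : (120 : ℝ) < p := by exact_mod_cast hp.big
  have hm : 0 < 30 * p := by omega
  have c6 : 0 < cos (6 * (π / 30)) := cos_pos_of_mem_Ioo ⟨by linarith [pi_pos], by linarith [pi_pos]⟩
  have c1 : 0 < cos (π / 30) := cos_pos_of_mem_Ioo ⟨by linarith [pi_pos], by linarith [pi_pos]⟩
  have hbase : cos ((6 * p : ℕ) * (π / (30 * p : ℕ))) * cos ((1 : ℕ) * (π / (30 * p : ℕ))) =
      cos ((1 * p : ℕ) * (π / (30 * p : ℕ))) * cos (u * (π / (30 * p : ℕ))) := by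
    rw [cos_mul_p hp0, cos_mul_p hp0]
    simpa using h
  by_cases hu : p ∣ u
  · obtain ⟨v, rfl⟩ := hu
    have h61 : ¬ p ∣ 61 := by
      intro hd
      have := Nat.le_of_dvd (by norm_num) hd
      have := hp.big
      omega
    have hc := conj4 hm (cop hp.prime (g := 61) (by decide) h61) hbase
    rw [cos_mul_pg hp0 6 61 (by decide), cos_mul_pg hp0 1 61 (by decide), mul_comm p v,
      cos_mul_pg hp0 v 61 (by decide)] at hc
    rw [cos_mul_p hp0, cos_mul_p hp0, mul_comm p v, cos_mul_p hp0] at hbase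
    rw [← hbase] at hc
    have hc2 := mul_left_cancel₀ (by simpa using c6.ne') hc
    have hlt : cos ((1 : ℕ) * ((61 : ℕ) * (π / (30 * p : ℕ)))) <
        cos ((1 : ℕ) * (π / (30 * p : ℕ))) := by
      apply Real.strictAntiOn_cos
      · constructor
        · positivity
        · push_cast
          rw [one_mul, div_le_iff₀ (by positivity)]
          nlinarith [pi_pos]
      · constructor
        · positivity
        · push_cast
          rw [one_mul, mul_div_assoc', div_le_iff₀ (by positivity)]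
          nlinarith [pi_pos]
      · push_cast
        have : 0 < π / (30 * p) := by positivity
        nlinarith
    exact absurd hc2 hlt.ne
  · have hcop : Nat.Coprime 60 p := by
      have := (cop hp.prime (g := 1) rfl (fun hd => by
        have := Nat.le_of_dvd (by norm_num) hd
        have := hp.big
        omega))
      rw [Nat.coprime_comm, Nat.Prime.coprime_iff_not_dvd hp.prime]
      intro hd
      have := Nat.le_of_dvd (by norm_num) hd
      have := hp.big
      omega
    set y := u % 60 + 60 with hy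
    have hy1 : y < 120 := by omega
    have hy0 : 0 < y := by omega
    have hcu : Nat.Coprime u p := ((Nat.Prime.coprime_iff_not_dvd hp.prime).2 hu).symm
    obtain ⟨w, hw⟩ := Nat.exists_mul_mod_eq_one_of_coprime hcu (hp.prime.one_lt)
    obtain ⟨g, hg1, hg2⟩ := Nat.chineseRemainder hcop 1 (w * y)
    have e1 : u * g ≡ y [MOD p] := by
      have a1 : u * g ≡ u * (w * y) [MOD p] := hg2.mul_left u
      have a2 : u * w ≡ 1 [MOD p] := by
        rw [Nat.ModEq, hw.2, Nat.mod_eq_of_lt hp.prime.one_lt]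
      have a3 : u * (w * y) ≡ 1 * y [MOD p] := by
        rw [← mul_assoc]
        exact a2.mul_right y
      simpa using a1.trans a3
    have e2 : u * g ≡ y [MOD 60] := by
      have a1 : u * g ≡ u * 1 [MOD 60] := hg1.mul_left u
      have a2 : u ≡ y [MOD 60] := by
        rw [Nat.ModEq, hy]
        omega
      rw [mul_one] at a1
      exact a1.trans a2
    have e3 : u * g ≡ y [MOD 60 * p] := (Nat.modEq_and_modEq_iff_modEq_mul hcop).1 ⟨e2, e1⟩
    have hpg : ¬ p ∣ g := by
      intro hd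
      have h1 : p ∣ u * g := hd.mul_left u
      have h2 : p ∣ y := (Nat.ModEq.dvd_iff e1 dvd_rfl).1 h1
      have := Nat.le_of_dvd hy0 h2
      have := hp.big
      omega
    have hc := conj4 hm (cop hp.prime hg1 hpg) hbase
    rw [cos_mul_pg hp0 6 g hg1, cos_mul_pg hp0 1 g hg1, ← mul_assoc (u : ℝ), ← Nat.cast_mul,
      cos_modEq hp0 e3] at hc
    have h4 : cos (4 * π / p) ≤ cos (y * (π / (30 * p : ℕ))) := by
      have hyr : (y : ℝ) ≤ 120 := by exact_mod_cast hy1.le
      apply Real.cos_le_cos_of_nonneg_of_le_pi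
      · positivity
      · rw [div_le_iff₀ hpr]
        nlinarith [pi_pos]
      · push_cast
        rw [mul_div_assoc', div_le_div_iff₀ (by positivity) hpr]
        nlinarith [pi_pos, mul_pos pi_pos hpr]
    have h5 : cos (π / 30) * cos (4 * π / p) ≤ cos (π / 30) * cos (y * (π / (30 * p : ℕ))) :=
      mul_le_mul_of_nonneg_left h4 c1.le
    have h6 := cos_le_one ((1 : ℕ) * (g * (π / (30 * p : ℕ))))
    have h7 := mul_le_mul_of_nonneg_left h6 c6.le
    have h8 := hp.h1
    simp only [Nat.cast_one, Nat.cast_ofNat, one_mul, mul_one] at hc h7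
    linarith

theorem ex2 {p : ℕ} (hp : Big p) (u : ℕ) :
    cos (6 * (π / 30)) * cos (10 * (π / 30)) ≠
      cos (π / (30 * p : ℕ)) * cos (u * (π / (30 * p : ℕ))) := by
  intro h
  have hp0 : 0 < p := hp.prime.pos
  have hpr : (0 : ℝ) < p := by exact_mod_cast hp0
  have hm : 0 < 30 * p := by omega
  have hbase : cos ((6 * p : ℕ) * (π / (30 * p : ℕ))) * cos ((10 * p : ℕ) * (π / (30 * p : ℕ))) =
      cos ((1 : ℕ) * (π / (30 * p : ℕ))) * cos (u * (π / (30 * p : ℕ))) := by
    rw [cos_mul_p hp0, cos_mul_p hp0]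
    simpa using h
  obtain ⟨l, hl1, hl2, hl3⟩ : ∃ l : ℕ, p ≤ 4 * l + 4 ∧ 4 * l ≤ p + 4 ∧ ¬ p ∣ 1 + 60 * l := by
    by_cases h1 : p ∣ 1 + 60 * (p / 4)
    · refine ⟨p / 4 + 1, by omega, by omega, fun h2 => ?_⟩
      have h3 := Nat.dvd_sub h2 h1
      have h4 : 1 + 60 * (p / 4 + 1) - (1 + 60 * (p / 4)) = 60 := by omega
      rw [h4] at h3
      have := Nat.le_of_dvd (by norm_num) h3
      have := hp.big
      omega
    · exact ⟨p / 4, by omega, by omega, h1⟩
  set g := 1 + 60 * l with hg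
  have hg1 : g ≡ 1 [MOD 60] := by
    rw [Nat.ModEq, hg]
    omega
  have hc := conj4 hm (cop hp.prime hg1 hl3) hbase
  rw [cos_mul_pg hp0 6 g hg1, cos_mul_pg hp0 10 g hg1] at hc
  have h1 : |cos ((1 : ℕ) * (g * (π / (30 * p : ℕ))))| ≤ 3 * π / p := by
    rw [← Real.sin_pi_div_two_sub]
    refine (Real.abs_sin_le_abs).trans ?_
    have hlr1 : (p : ℝ) ≤ 4 * l + 4 := by exact_mod_cast hl1
    have hlr2 : (4 : ℝ) * l ≤ p + 4 := by exact_mod_cast hl2
    have e1 : π / 2 - (1 : ℕ) * (g * (π / (30 * p : ℕ))) = (15 * p - g) * (π / (30 * p)) := by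
      push_cast
      field_simp
      ring
    have e2 : 3 * π / p = 90 * (π / (30 * p)) := by
      field_simp
      ring
    rw [e1, e2, abs_mul, abs_of_pos (show 0 < π / (30 * (p : ℝ)) by positivity)]
    refine mul_le_mul_of_nonneg_right ?_ (by positivity)
    rw [abs_le, hg]
    push_cast
    constructor <;> linarith
  have h2 := abs_cos_le_one (u * (g * (π / (30 * p : ℕ))))
  have h3 : |cos ((1 : ℕ) * (g * (π / (30 * p : ℕ)))) * cos (u * (g * (π / (30 * p : ℕ))))| ≤
      3 * π / p := by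
    rw [abs_mul]
    calc _ ≤ |cos ((1 : ℕ) * (g * (π / (30 * p : ℕ))))| * 1 :=
          mul_le_mul_of_nonneg_left h2 (abs_nonneg _)
      _ ≤ 3 * π / p := by rw [mul_one]; exact h1
  rw [← hc] at h3
  have h4 := le_abs_self (cos ((6 : ℕ) * (π / 30)) * cos ((10 : ℕ) * (π / 30)))
  have h5 := hp.h2
  push_cast at h3 h4
  linarith

theorem ex3 {p : ℕ} (hp : Big p) (u : ℝ) :
    cos (π / (30 * p : ℕ)) * cos (10 * (π / 30)) ≠ cos (11 * (π / 30)) * cos u := by
  intro h
  have c11 : 0 < cos (11 * (π / 30)) :=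
    cos_pos_of_mem_Ioo ⟨by linarith [pi_pos], by linarith [pi_pos]⟩
  have h1 := mul_le_mul_of_nonneg_left (cos_le_one u) c11.le
  have h2 := hp.h3
  linarith

theorem exists_big (N : ℕ) : ∃ p, N < p ∧ Big p := by
  have hpi := pi_pos
  have t1 : Filter.Tendsto (fun p : ℕ => 4 * π / (p : ℝ)) Filter.atTop (nhds 0) :=
    tendsto_const_div_atTop_nhds_zero_nat _
  have t2 : Filter.Tendsto (fun p : ℕ => 3 * π / (p : ℝ)) Filter.atTop (nhds 0) :=
    tendsto_const_div_atTop_nhds_zero_nat _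
  have t3 : Filter.Tendsto (fun p : ℕ => π / (30 * p : ℕ)) Filter.atTop (nhds 0) := by
    have := tendsto_const_div_atTop_nhds_zero_nat (π / 30)
    refine this.congr fun p => ?_
    push_cast
    rw [div_div]
  have l1 : Filter.Tendsto (fun p : ℕ => cos (π / 30) * cos (4 * π / p)) Filter.atTop
      (nhds (cos (π / 30) * cos 0)) :=
    ((continuous_cos.tendsto 0).comp t1).const_mul _
  have l3 : Filter.Tendsto (fun p : ℕ => cos (π / (30 * p : ℕ)) * cos (10 * (π / 30))) Filter.atTop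
      (nhds (cos 0 * cos (10 * (π / 30)))) :=
    ((continuous_cos.tendsto 0).comp t3).mul_const _
  have i1 : cos (6 * (π / 30)) < cos (π / 30) * cos 0 := by
    rw [cos_zero, mul_one]
    exact cos_lt_cos_of_nonneg_of_le_pi (by positivity) (by linarith) (by linarith)
  have i2 : 0 < cos (6 * (π / 30)) * cos (10 * (π / 30)) :=
    mul_pos (cos_pos_of_mem_Ioo ⟨by linarith, by linarith⟩)
      (cos_pos_of_mem_Ioo ⟨by linarith, by linarith⟩)
  have i3 : cos (11 * (π / 30)) < cos 0 * cos (10 * (π / 30)) := by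
    rw [cos_zero, one_mul]
    exact cos_lt_cos_of_nonneg_of_le_pi (by positivity) (by linarith) (by linarith)
  have hev := ((l1.eventually (lt_mem_nhds i1)).and (t2.eventually (gt_mem_nhds i2))).and
    ((l3.eventually (lt_mem_nhds i3)))
  obtain ⟨M, hM⟩ := Filter.eventually_atTop.1 hev
  obtain ⟨p, hp1, hp2⟩ := Nat.exists_infinite_primes (M + N + 121)
  obtain ⟨⟨a1, a2⟩, a3⟩ := hM p (by omega)
  exact ⟨p, by omega, hp2, by omega, a1, a2, a3⟩

end Pool.Agent.X177.AS
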