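import Mathlib

set_option autoImplicit false

namespace Pool.Agent.X177.AS

open Real Polynomial

/-- The polynomial relation behind an identity `cos A cos B = cos C cos D`. -/
noncomputable def pol (A B C D : ℕ) : ℤ[X] :=
  X ^ (C + D) * (X ^ (2 * A) + 1) * (X ^ (2 * B) + 1) -
    X ^ (A + B) * (X ^ (2 * C) + 1) * (X ^ (2 * D) + 1)

theorem aeval_pol (A B C D : ℕ) (θ : ℝ) :
    aeval (Complex.exp (θ * Complex.I)) (pol A B C D) =
      Complex.exp (θ * Complex.I) ^ (A + B + C + D) * 4 *
        ((Real.cos (A * θ) * Real.cos (B * θ) - Real.cos (C * θ) * Real.cos (D * θ) : ℝ) : ℂ) := by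
  set z := Complex.exp (θ * Complex.I) with hz
  have key : ∀ n : ℕ, z ^ n * (2 * (Real.cos (n * θ) : ℂ)) = z ^ (2 * n) + 1 := by
    intro n
    have h1 : z ^ n = Complex.exp ((n * θ : ℂ) * Complex.I) := by
      rw [hz, ← Complex.exp_nat_mul]
      congr 1
      ring
    have h2 : z ^ (2 * n) = z ^ n * z ^ n := by rw [← pow_add]; congr 1; ring
    rw [h2, h1, Complex.ofReal_cos, Complex.ofReal_mul, Complex.ofReal_natCast, Complex.cos,
      mul_div_cancel₀ _ (two_ne_zero), mul_add, ← Complex.exp_add, ← Complex.exp_add]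
    simp
  simp only [pol, map_sub, map_mul, map_add, map_pow, aeval_X, map_one, Complex.ofReal_sub,
    Complex.ofReal_mul]
  rw [← key A, ← key B, ← key C, ← key D]
  ring

/-- Galois conjugation of an identity between cosines. -/
theorem conj4 {m : ℕ} (hm : 0 < m) {A B C D g : ℕ} (hg : g.Coprime (2 * m))
    (h : cos (A * (π / m)) * cos (B * (π / m)) = cos (C * (π / m)) * cos (D * (π / m))) :
    cos (A * (g * (π / m))) * cos (B * (g * (π / m))) =
      cos (C * (g * (π / m))) * cos (D * (g * (π / m))) := by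
  have hm' : (m : ℂ) ≠ 0 := by exact_mod_cast hm.ne'
  have h2m : 2 * m ≠ 0 := by omega
  set z := Complex.exp (((π / m : ℝ) : ℂ) * Complex.I) with hz
  have hprim : IsPrimitiveRoot z (2 * m) := by
    have := Complex.isPrimitiveRoot_exp (2 * m) h2m
    convert this using 2
    push_cast
    field_simp
  have h1 : aeval z (pol A B C D) = 0 := by
    rw [aeval_pol, h, sub_self]
    simp
  have h2 : minpoly ℤ z ∣ pol A B C D :=
    minpoly.isIntegrallyClosed_dvd (hprim.isIntegral (by omega)) h1
  have h3 : aeval (z ^ g) (pol A B C D) = 0 := by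
    rw [hprim.minpoly_eq_pow_coprime hg] at h2
    obtain ⟨q, hq⟩ := h2
    rw [hq, map_mul, minpoly.aeval, zero_mul]
  have h4 : z ^ g = Complex.exp (((g * (π / m) : ℝ) : ℂ) * Complex.I) := by
    rw [hz, ← Complex.exp_nat_mul]
    congr 1
    push_cast
    ring
  rw [h4, aeval_pol] at h3
  have h5 : Complex.exp (((g * (π / m) : ℝ) : ℂ) * Complex.I) ^ (A + B + C + D) * 4 ≠ 0 :=
    mul_ne_zero (pow_ne_zero _ (Complex.exp_ne_zero _)) (by norm_num)
  have h6 := (mul_eq_zero.1 h3).resolve_left h5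
  exact sub_eq_zero.1 (by exact_mod_cast h6)

end Pool.Agent.X177.AS
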