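import Pool.Agent.X177.AS.Defs

set_option autoImplicit false

namespace Pool.Agent.X177.AS

open Real

/-- The unit vector with the angle `xπ/m`. -/
noncomputable def E (m : ℕ) (x : ℤ) : ℂ := Complex.exp (((x * (π / m) : ℝ) : ℂ) * Complex.I)

/-- The line with the foot `d * E y`. -/
noncomputable def ln (m : ℕ) (d : ℝ) (y : ℤ) : Set ℂ :=
  {z | (z * (starRingEnd ℂ) (E m y)).re = d}

section

variable {m : ℕ}

theorem E_add (x y : ℤ) : E m (x + y) = E m x * E m y := by
  rw [E, E, E, ← Complex.exp_add]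
  congr 1
  push_cast
  ring

theorem E_zero : E m 0 = 1 := by simp [E]

theorem E_conj (x : ℤ) : (starRingEnd ℂ) (E m x) = E m (-x) := by
  rw [E, E, ← Complex.exp_conj, map_mul, Complex.conj_ofReal, Complex.conj_I]
  congr 1
  push_cast
  ring

theorem E_norm (x : ℤ) : ‖E m x‖ = 1 := by
  rw [E, Complex.norm_exp_ofReal_mul_I]

theorem E_ne (x : ℤ) : E m x ≠ 0 := Complex.exp_ne_zero _

theorem E_re (x : ℤ) : (E m x).re = cos (x * (π / m)) := by
  rw [E, Complex.exp_ofReal_mul_I_re]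

theorem E_mul_neg (x : ℤ) : E m x * E m (-x) = 1 := by
  rw [← E_add, add_neg_cancel, E_zero]

theorem zeta_pow (k : ℕ) : zeta m ^ k = E m (2 * k) := by
  rw [zeta, E, ← Complex.exp_nat_mul]
  congr 1
  push_cast
  ring

theorem E_eq_iff (hm : 0 < m) (x y : ℤ) : E m x = E m y ↔ (2 * m : ℤ) ∣ x - y := by
  have hm' : (m : ℝ) ≠ 0 := by exact_mod_cast hm.ne'
  have hpi := pi_ne_zero
  rw [E, E, Complex.exp_eq_exp_iff_exists_int]
  constructor
  · rintro ⟨n, hn⟩
    refine ⟨n, ?_⟩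
    have h1 : ((x * (π / m) : ℝ) : ℂ) * Complex.I =
        (((y * (π / m) + n * (2 * π) : ℝ)) : ℂ) * Complex.I := by
      rw [hn]
      push_cast
      ring
    have h2 := mul_right_cancel₀ Complex.I_ne_zero h1
    have h3 : (x : ℝ) * (π / m) = y * (π / m) + n * (2 * π) := by exact_mod_cast h2
    have h4 : (x : ℝ) = y + n * (2 * m) := by
      field_simp at h3
      linarith
    have h5 : x = y + n * (2 * m) := by exact_mod_cast h4
    rw [h5]
    ring
  · rintro ⟨n, hn⟩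
    refine ⟨n, ?_⟩
    have h1 : x = y + 2 * m * n := by linarith
    rw [h1]
    have h2 : (((y + 2 * m * n : ℤ) : ℝ) * (π / m) : ℝ) = y * (π / m) + n * (2 * π) := by
      push_cast
      field_simp
    rw [h2]
    push_cast
    ring

theorem cos_mul_eq (hm : 0 < m) (x s : ℤ) :
    cos (x * (π / m)) = cos (s * (π / m)) ↔ (2 * m : ℤ) ∣ x - s ∨ (2 * m : ℤ) ∣ x + s := by
  have hm' : (m : ℝ) ≠ 0 := by exact_mod_cast hm.ne'
  have hpi := pi_ne_zero
  rw [Real.cos_eq_cos_iff]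
  constructor
  · rintro ⟨k, hk | hk⟩
    · left
      refine ⟨-k, ?_⟩
      have h4 : (s : ℝ) = 2 * k * m + x := by
        field_simp at hk
        linarith
      have h5 : s = 2 * k * m + x := by exact_mod_cast h4
      rw [h5]
      ring
    · right
      refine ⟨k, ?_⟩
      have h4 : (s : ℝ) = 2 * k * m - x := by
        field_simp at hk
        linarith
      have h5 : s = 2 * k * m - x := by exact_mod_cast h4
      rw [h5]
      ring
  · rintro (⟨k, hk⟩ | ⟨k, hk⟩)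
    · refine ⟨-k, Or.inl ?_⟩
      have : s = x - 2 * m * k := by linarith
      rw [this]
      push_cast
      field_simp
      ring
    · refine ⟨k, Or.inr ?_⟩
      have : s = 2 * m * k - x := by linarith
      rw [this]
      push_cast
      field_simp

theorem mem_ln {r d : ℝ} {x y : ℤ} : (r : ℂ) * E m x ∈ ln m d y ↔ r * cos (((x - y : ℤ) : ℝ) * (π / m)) = d := by
  rw [ln, Set.mem_ofPred_eq, E_conj, mul_assoc, ← E_add, Complex.re_ofReal_mul, E_re]
  rfl

theorem ln_inj (hm : 0 < m) {d d' : ℝ} (hd : 0 < d) (hd' : 0 < d') {y y' : ℤ}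
    (h : ln m d y = ln m d' y') : d = d' ∧ (2 * m : ℤ) ∣ y - y' := by
  have h1 : (d : ℂ) * E m y ∈ ln m d y := by
    rw [mem_ln]
    simp
  have h2 : (d' : ℂ) * E m y' ∈ ln m d' y' := by
    rw [mem_ln]
    simp
  rw [h, mem_ln] at h1
  rw [← h, mem_ln] at h2
  have h3 : cos (((y' - y : ℤ) : ℝ) * (π / m)) = cos (((y - y' : ℤ) : ℝ) * (π / m)) := by
    rw [← Real.cos_neg]
    congr 1
    push_cast
    ring
  rw [h3] at h2
  set c := cos (((y - y' : ℤ) : ℝ) * (π / m)) with hc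
  have h4 : c ^ 2 = 1 := by
    have h5 : d * c ^ 2 = d * 1 := by
      calc d * c ^ 2 = (d * c) * c := by ring
        _ = d' * c := by rw [h1]
        _ = d * 1 := by rw [h2, mul_one]
    exact mul_left_cancel₀ hd.ne' h5
  have h5 : 0 < c := by
    by_contra h6
    push Not at h6
    nlinarith
  have h6 : c = 1 := by nlinarith
  rw [h6, mul_one] at h1
  refine ⟨h1, ?_⟩
  have h7 : cos (((y - y' : ℤ) : ℝ) * (π / m)) = cos (((0 : ℤ) : ℝ) * (π / m)) := by
    rw [← hc, h6]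
    simp
  rcases (cos_mul_eq hm _ _).1 h7 with h8 | h8
  · simpa using h8
  · simpa using h8

theorem ln_congr (hm : 0 < m) {d : ℝ} {y y' : ℤ} (h : (2 * m : ℤ) ∣ y - y') :
    ln m d y = ln m d y' := by
  rw [ln, ln, (E_eq_iff hm y y').2 h]

theorem isLine_ln (d : ℝ) (y : ℤ) : IsLine (ln m d y) := by
  refine ⟨d * E m y, Complex.I * E m y, mul_ne_zero Complex.I_ne_zero (E_ne y), ?_⟩
  ext z
  simp only [ln, Set.mem_ofPred_eq]
  have key : z = (z * (starRingEnd ℂ) (E m y)) * E m y := by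
    rw [E_conj, mul_assoc, mul_comm (E m (-y)), E_mul_neg, mul_one]
  constructor
  · intro h
    refine ⟨(z * (starRingEnd ℂ) (E m y)).im, ?_⟩
    conv_lhs => rw [key, ← Complex.re_add_im (z * (starRingEnd ℂ) (E m y)), h]
    ring
  · rintro ⟨x, rfl⟩
    have : (d * E m y + x * (Complex.I * E m y)) * (starRingEnd ℂ) (E m y) = d + x * Complex.I := by
      rw [E_conj]
      have h1 := E_mul_neg (m := m) y
      calc _ = (d + x * Complex.I) * (E m y * E m (-y)) := by ring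
        _ = _ := by rw [h1, mul_one]
    rw [this]
    simp

/-- A parity class has `m` elements modulo `2m`. -/
theorem ncard_class {α : Type*} (hm : 0 < m) (F : ℤ → α)
    (hF : ∀ x y, F x = F y ↔ (2 * m : ℤ) ∣ x - y) (ε : ℤ) :
    {w | ∃ x : ℤ, (2 : ℤ) ∣ x - ε ∧ w = F x}.ncard = m := by
  have h1 : {w | ∃ x : ℤ, (2 : ℤ) ∣ x - ε ∧ w = F x} =
      (fun k : ℕ => F (ε + 2 * k)) '' (Finset.range m : Set ℕ) := by
    ext w
    simp only [Set.mem_ofPred_eq, Set.mem_image, Finset.coe_range, Set.mem_Iio]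
    constructor
    · rintro ⟨x, ⟨k, hk⟩, rfl⟩
      refine ⟨(k % m).toNat, ?_, ?_⟩
      · have h2 := Int.emod_lt_of_pos k (show (0 : ℤ) < m by exact_mod_cast hm)
        have h3 := Int.emod_nonneg k (show (m : ℤ) ≠ 0 by exact_mod_cast hm.ne')
        omega
      · have h3 := Int.emod_nonneg k (show (m : ℤ) ≠ 0 by exact_mod_cast hm.ne')
        rw [hF, Int.toNat_of_nonneg h3]
        refine ⟨-(k / m), ?_⟩
        have h4 := Int.emod_add_mul_ediv k m
        have h5 : x = ε + 2 * k := by linarith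
        rw [h5]
        linear_combination 2 * h4
    · rintro ⟨k, _, rfl⟩
      exact ⟨ε + 2 * k, ⟨k, by ring⟩, rfl⟩
  rw [h1, Set.InjOn.ncard_image]
  · simp
  · intro a ha b hb h
    simp only [Finset.coe_range, Set.mem_Iio] at ha hb
    rw [hF] at h
    obtain ⟨c, hc⟩ := h
    have h2 : (a : ℤ) - b = m * c := by linarith
    have h3 : c = 0 := by
      by_contra hne
      rcases lt_or_gt_of_ne hne with h4 | h4
      · have : (m : ℤ) * c ≤ m * (-1) := mul_le_mul_of_nonneg_left (by omega) (by omega)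
        omega
      · have : (m : ℤ) * 1 ≤ m * c := mul_le_mul_of_nonneg_left (by omega) (by omega)
        omega
    rw [h3] at h2
    omega

/-- The points. -/
def Pt (m : ℕ) (r : ℝ) (ε : ℤ) : Set ℂ := {w | ∃ x : ℤ, (2 : ℤ) ∣ x - ε ∧ w = r * E m x}

/-- The lines. -/
def Ln (m : ℕ) (d : ℝ) (δ : ℤ) : Set (Set ℂ) := {ℓ | ∃ y : ℤ, (2 : ℤ) ∣ y - δ ∧ ℓ = ln m d y}

theorem rE_eq_iff (hm : 0 < m) {r : ℝ} (hr : 0 < r) (x y : ℤ) :
    (r : ℂ) * E m x = r * E m y ↔ (2 * m : ℤ) ∣ x - y := by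
  rw [← E_eq_iff hm]
  constructor
  · intro h
    exact mul_left_cancel₀ (by exact_mod_cast hr.ne') h
  · intro h
    rw [h]

theorem ln_eq_iff (hm : 0 < m) {d : ℝ} (hd : 0 < d) (x y : ℤ) :
    ln m d x = ln m d y ↔ (2 * m : ℤ) ∣ x - y :=
  ⟨fun h => (ln_inj hm hd hd h).2, fun h => ln_congr hm h⟩

theorem gon_Pt (hm : 0 < m) {r : ℝ} (hr : 0 < r) (ε : ℤ) :
    ∃ z : ℂ, z ≠ 0 ∧ Pt m r ε = {w | ∃ k : ℕ, w = z * zeta m ^ k} := by
  refine ⟨r * E m ε, mul_ne_zero (by exact_mod_cast hr.ne') (E_ne _), ?_⟩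
  ext w
  simp only [Pt, Set.mem_ofPred_eq]
  constructor
  · rintro ⟨x, ⟨k, hk⟩, rfl⟩
    have h3 := Int.emod_nonneg k (show (m : ℤ) ≠ 0 by exact_mod_cast hm.ne')
    refine ⟨(k % m).toNat, ?_⟩
    rw [zeta_pow, mul_assoc, ← E_add, rE_eq_iff hm hr, Int.toNat_of_nonneg h3]
    have h4 := Int.emod_add_mul_ediv k m
    have h5 : x = ε + 2 * k := by linarith
    refine ⟨k / m, ?_⟩
    rw [h5]
    linear_combination -2 * h4
  · rintro ⟨k, rfl⟩
    refine ⟨ε + 2 * k, ⟨k, by ring⟩, ?_⟩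
    rw [zeta_pow, mul_assoc, ← E_add]

theorem rot_ln (d : ℝ) (y : ℤ) (k : ℤ) :
    (fun z : ℂ => E m k * z) '' ln m d y = ln m d (y + k) := by
  ext z
  simp only [ln, Set.mem_image, Set.mem_ofPred_eq]
  constructor
  · rintro ⟨w, hw, rfl⟩
    rw [← hw, E_conj, E_conj]
    congr 1
    have h1 := E_mul_neg (m := m) k
    have h2 : E m (-(y + k)) = E m (-y) * E m (-k) := by
      rw [← E_add]
      congr 1
      ring
    rw [h2]
    linear_combination (w * E m (-y)) * h1
  · intro h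
    refine ⟨E m (-k) * z, ?_, ?_⟩
    · rw [← h, E_conj, E_conj]
      congr 1
      have h2 : E m (-(y + k)) = E m (-y) * E m (-k) := by
        rw [← E_add]
        congr 1
        ring
      rw [h2]
      ring
    · rw [← mul_assoc, E_mul_neg, one_mul]

theorem conj_ln (d : ℝ) (y : ℤ) :
    (fun z : ℂ => (starRingEnd ℂ) z) '' ln m d y = ln m d (-y) := by
  ext z
  simp only [ln, Set.mem_image, Set.mem_ofPred_eq]
  constructor
  · rintro ⟨w, hw, rfl⟩
    rw [← hw, ← Complex.conj_re (w * (starRingEnd ℂ) (E m y)), map_mul, E_conj, E_conj, E_conj,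
      neg_neg]
  · intro h
    refine ⟨(starRingEnd ℂ) z, ?_, Complex.conj_conj z⟩
    rw [← h, ← Complex.conj_re (z * (starRingEnd ℂ) (E m (-y))), map_mul, E_conj, E_conj, E_conj,
      neg_neg]

end

end Pool.Agent.X177.AS
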