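import Pool.Agent.X177.AS.Conf
import Pool.Agent.X177.AS.Ex

set_option autoImplicit false

namespace Pool.Agent.X177.AS

open Real

section

variable {m : ℕ} {s t : Fin 3 → ℕ} {r d : Fin 3 → ℝ} {ε δ : Fin 3 → ℤ}

theorem isConn (hm : 0 < m) (h : Data m s t r d ε δ) (hs0 : s 0 = 1) :
    IsConn (fun j => Pt m (r j) (ε j)) (fun j => Ln m (d j) (δ j)) := by
  set R : ℂ → ℂ → Prop := fun a b => a ∈ ⋃ j, Pt m (r j) (ε j) ∧ b ∈ ⋃ j, Pt m (r j) (ε j) ∧
    ∃ ℓ ∈ ⋃ j, Ln m (d j) (δ j), a ∈ ℓ ∧ b ∈ ℓ with hR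
  have hsymm : ∀ a b, R a b → R b a := by
    rintro a b ⟨h1, h2, ℓ, h3, h4, h5⟩
    exact ⟨h2, h1, ℓ, h3, h5, h4⟩
  have hsymm' : ∀ a b, Relation.ReflTransGen R a b → Relation.ReflTransGen R b a := by
    intro a b hab
    induction hab with
    | refl => exact Relation.ReflTransGen.refl
    | tail _ h ih => exact (Relation.ReflTransGen.single (hsymm _ _ h)).trans ih
  -- the first orbit
  have step : ∀ x : ℤ, (2 : ℤ) ∣ x - ε 0 → R (r 0 * E m x) (r 0 * E m (x + 2)) := by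
    intro x hx
    obtain ⟨a, ha⟩ := hx
    obtain ⟨b, hb⟩ := h.ps 0
    rw [hs0] at hb
    push_cast at hb
    refine ⟨Set.mem_iUnion.2 ⟨0, x, ⟨a, ha⟩, rfl⟩,
      Set.mem_iUnion.2 ⟨0, x + 2, ⟨a + 1, by linarith⟩, rfl⟩, ln m (d 0) (x + 1),
      Set.mem_iUnion.2 ⟨0, x + 1, ⟨a - b, by linarith⟩, rfl⟩, ?_, ?_⟩
    · rw [mem_ln, h.hs 0, hs0]
      congr 1
      rw [← Real.cos_neg]
      congr 1
      push_cast
      ring
    · rw [mem_ln, h.hs 0, hs0]
      congr 1
      congr 1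
      push_cast
      ring
  have steps : ∀ (n : ℕ) (x : ℤ), (2 : ℤ) ∣ x - ε 0 →
      Relation.ReflTransGen R (r 0 * E m x) (r 0 * E m (x + 2 * n)) := by
    intro n
    induction n with
    | zero => intro x _; simpa using Relation.ReflTransGen.refl
    | succ n ih =>
      intro x hx
      refine (ih x hx).tail ?_
      have h1 := step (x + 2 * n) (by
        obtain ⟨a, ha⟩ := hx
        exact ⟨a + n, by linarith⟩)
      convert h1 using 3
      push_cast
      ring
  have all0 : ∀ x y : ℤ, (2 : ℤ) ∣ x - ε 0 → (2 : ℤ) ∣ y - ε 0 →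
      Relation.ReflTransGen R (r 0 * E m x) (r 0 * E m y) := by
    rintro x y ⟨a, ha⟩ ⟨b, hb⟩
    have h3 := Int.emod_nonneg (b - a) (show (m : ℤ) ≠ 0 by exact_mod_cast hm.ne')
    have h1 := steps ((b - a) % m).toNat x ⟨a, ha⟩
    rw [Int.toNat_of_nonneg h3] at h1
    have h4 : (r 0 : ℂ) * E m (x + 2 * ((b - a) % m)) = r 0 * E m y := by
      rw [rE_eq_iff hm (h.r0 0)]
      have h4 := Int.emod_add_mul_ediv (b - a) m
      refine ⟨-((b - a) / m), ?_⟩
      linear_combination ha - hb + 2 * h4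
    rwa [h4] at h1
  have to0 : ∀ w ∈ ⋃ j, Pt m (r j) (ε j), ∃ x : ℤ, (2 : ℤ) ∣ x - ε 0 ∧
      Relation.ReflTransGen R w (r 0 * E m x) := by
    intro w hw
    obtain ⟨j, x, hx, rfl⟩ := Set.mem_iUnion.1 hw
    obtain ⟨a, ha⟩ := hx
    fin_cases j
    · exact ⟨x, ⟨a, ha⟩, Relation.ReflTransGen.refl⟩
    · obtain ⟨b, hb⟩ := h.ps 0
      obtain ⟨c, hc⟩ := h.pt 0
      have ha' : x - ε 1 = 2 * a := ha
      have hc' : ε 1 - δ 0 - t 0 = 2 * c := hc
      refine ⟨x - t 0 - s 0, ⟨a + c + b, by linarith⟩, Relation.ReflTransGen.single ⟨hw,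
        Set.mem_iUnion.2 ⟨0, _, ⟨a + c + b, by linarith⟩, rfl⟩, ln m (d 0) (x - t 0),
        Set.mem_iUnion.2 ⟨0, x - t 0, ⟨a + c, by linarith⟩, rfl⟩, ?_, ?_⟩⟩
      · show (r 1 : ℂ) * E m x ∈ _
        rw [mem_ln, h.ht 0]
        congr 1
        congr 1
        push_cast
        ring
      · rw [mem_ln, h.hs 0]
        congr 1
        rw [← Real.cos_neg]
        congr 1
        push_cast
        ring
    · obtain ⟨b, hb⟩ := h.ps 2
      obtain ⟨c, hc⟩ := h.pt 2
      have ha' : x - ε 2 = 2 * a := ha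
      have hc' : ε 0 - δ 2 - t 2 = 2 * c := hc
      refine ⟨x - s 2 - t 2, ⟨a - s 2 - t 2 - b - c, by linarith⟩,
        Relation.ReflTransGen.single ⟨hw,
        Set.mem_iUnion.2 ⟨0, _, ⟨a - s 2 - t 2 - b - c, by linarith⟩, rfl⟩,
        ln m (d 2) (x - s 2),
        Set.mem_iUnion.2 ⟨2, x - s 2, ⟨a - b - s 2, by linarith⟩, rfl⟩, ?_, ?_⟩⟩
      · show (r 2 : ℂ) * E m x ∈ _
        rw [mem_ln, h.hs 2]
        congr 1
        congr 1
        push_cast
        ring
      · have := h.ht 2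
        have h20 : (2 : Fin 3) + 1 = 0 := rfl
        rw [h20] at this
        rw [mem_ln, this]
        congr 1
        rw [← Real.cos_neg]
        congr 1
        push_cast
        ring
  intro x hx y hy
  obtain ⟨a, ha, h1⟩ := to0 x hx
  obtain ⟨b, hb, h2⟩ := to0 y hy
  exact (h1.trans (all0 a b ha hb)).trans (hsymm' _ _ h2)

end

theorem cos_id : cos (π / 30) * cos (11 * (π / 30)) = cos (6 * (π / 30)) * cos (10 * (π / 30)) := by
  have h5 : cos (6 * (π / 30)) = (1 + √5) / 4 := by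
    rw [← Real.cos_pi_div_five]
    congr 1
    ring
  have h12 : cos (12 * (π / 30)) = 2 * cos (6 * (π / 30)) ^ 2 - 1 := by
    rw [← Real.cos_two_mul]
    congr 1
    ring
  have h10 : cos (10 * (π / 30)) = 1 / 2 := by
    rw [← Real.cos_pi_div_three]
    congr 1
    ring
  have h1 : cos (12 * (π / 30)) = cos (11 * (π / 30)) * cos (π / 30) -
      sin (11 * (π / 30)) * sin (π / 30) := by
    rw [← Real.cos_add]
    congr 1
    ring
  have h2 : cos (10 * (π / 30)) = cos (11 * (π / 30)) * cos (π / 30) +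
      sin (11 * (π / 30)) * sin (π / 30) := by
    rw [← Real.cos_sub]
    congr 1
    ring
  have hsq : √5 ^ 2 = 5 := Real.sq_sqrt (by norm_num)
  rw [h12, h5] at h1
  rw [h10] at h2 ⊢
  rw [h5]
  linear_combination (-1/2) * h1 - (1/2) * h2 + (1/16) * hsq

theorem data {p : ℕ} (hp : Big p) :
    Data (30 * p) ![1, p, 11 * p] ![6 * p, 1, 10 * p]
      ![1, cos (π / (30 * p : ℕ)) / cos (6 * (π / 30)), cos (π / 30) / cos (6 * (π / 30))]
      ![cos (π / (30 * p : ℕ)), cos (π / (30 * p : ℕ)) * cos (π / 30) / cos (6 * (π / 30)), 1 / 2]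
      ![0, 1, 1] ![1, 0, 0] := by
  have hpi := pi_pos
  have hp0 : 0 < p := hp.prime.pos
  have hpr : (120 : ℝ) < p := by exact_mod_cast hp.big
  have hpos : (0 : ℝ) < p := by linarith
  have he0 : 0 < π / (30 * p : ℕ) := by positivity
  have he1 : π / (30 * p : ℕ) < π / 30 := by
    push_cast
    rw [div_lt_div_iff₀ (by positivity) (by norm_num)]
    nlinarith
  set cε := cos (π / (30 * p : ℕ)) with hcε
  set c1 := cos (π / 30) with hc1
  set c6 := cos (6 * (π / 30)) with hc6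
  have p6 : 0 < c6 := cos_pos_of_mem_Ioo ⟨by linarith, by linarith⟩
  have p1 : 0 < c1 := cos_pos_of_mem_Ioo ⟨by linarith, by linarith⟩
  have i1 : c6 < c1 := cos_lt_cos_of_nonneg_of_le_pi (by positivity) (by linarith) (by linarith)
  have i2 : c1 < cε := cos_lt_cos_of_nonneg_of_le_pi he0.le (by linarith) he1
  have h10 : cos (10 * (π / 30)) = 1 / 2 := by
    rw [← Real.cos_pi_div_three]
    congr 1
    ring
  have i3 : 1 / 2 < c6 := by
    rw [← h10]
    exact cos_lt_cos_of_nonneg_of_le_pi (by positivity) (by linarith) (by linarith)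
  have pε : 0 < cε := p1.trans i2
  have hid := cos_id
  rw [h10, ← hc1, ← hc6] at hid
  have hpodd : ∃ k : ℤ, (p : ℤ) = 2 * k + 1 := by
    rcases hp.prime.eq_two_or_odd with h | h
    · have := hp.big
      omega
    · exact ⟨p / 2, by omega⟩
  obtain ⟨k, hk⟩ := hpodd
  have m1 : cos ((1 * p : ℕ) * (π / (30 * p : ℕ))) = c1 := by
    rw [cos_mul_p hp0]
    simp [hc1]
  have m6 : cos ((6 * p : ℕ) * (π / (30 * p : ℕ))) = c6 := by
    rw [cos_mul_p hp0]
    simp [hc6]
  have m10 : cos ((10 * p : ℕ) * (π / (30 * p : ℕ))) = 1 / 2 := by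
    rw [cos_mul_p hp0, ← h10]
    simp
  have m11 : cos ((11 * p : ℕ) * (π / (30 * p : ℕ))) = cos (11 * (π / 30)) := by
    rw [cos_mul_p hp0]
    simp
  rw [one_mul] at m1
  have hcosu : ∀ u : ℤ, cos (u * (π / (30 * p : ℕ))) = cos ((u.natAbs : ℕ) * (π / (30 * p : ℕ))) := by
    intro u
    rcases Int.natAbs_eq u with h | h
    · conv_lhs => rw [h]
      simp
    · conv_lhs => rw [h]
      rw [Int.cast_neg, neg_mul, Real.cos_neg]
      simp
  refine ⟨?_, ?_, ?_, ?_, ?_, ?_, ?_, ?_, ?_, ?_⟩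
  · intro j
    have := hp.big
    fin_cases j <;> simp <;> omega
  · intro j
    fin_cases j
    · simp
    · simpa using div_pos pε p6
    · simpa using div_pos p1 p6
  · intro j
    fin_cases j
    · simpa using pε
    · simpa using div_pos (mul_pos pε p1) p6
    · simp
  · have n01 : (1 : ℝ) ≠ cε / c6 := ((one_lt_div p6).2 (i1.trans i2)).ne
    have n02 : (1 : ℝ) ≠ c1 / c6 := ((one_lt_div p6).2 i1).ne
    have n12 : cε / c6 ≠ c1 / c6 := ((div_lt_div_iff_of_pos_right p6).2 i2).ne'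
    intro i j hij
    fin_cases i <;> fin_cases j
    · exact absurd rfl hij
    · exact n01
    · exact n02
    · exact n01.symm
    · exact absurd rfl hij
    · exact n12
    · exact n02.symm
    · exact n12.symm
    · exact absurd rfl hij
  · have n01 : cε < cε * c1 / c6 := by
      rw [lt_div_iff₀ p6]
      exact mul_lt_mul_of_pos_left i1 pε
    have n02 : 1 / 2 < cε := i3.trans (i1.trans i2)
    have n12 : 1 / 2 < cε * c1 / c6 := n02.trans n01
    intro i j hij
    fin_cases i <;> fin_cases j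
    · exact absurd rfl hij
    · exact n01.ne
    · exact n02.ne'
    · exact n01.ne'
    · exact absurd rfl hij
    · exact n12.ne'
    · exact n02.ne
    · exact n12.ne
    · exact absurd rfl hij
  · intro j
    fin_cases j
    · show cε = 1 * cos ((1 : ℕ) * (π / (30 * p : ℕ)))
      simp [hcε]
    · show cε * c1 / c6 = cε / c6 * cos ((p : ℕ) * (π / (30 * p : ℕ)))
      rw [m1]
      ring
    · show (1 / 2 : ℝ) = c1 / c6 * cos ((11 * p : ℕ) * (π / (30 * p : ℕ)))
      rw [m11, div_mul_eq_mul_div, hid]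
      field_simp
  · intro j
    fin_cases j
    · show cε = cε / c6 * cos ((6 * p : ℕ) * (π / (30 * p : ℕ)))
      rw [m6]
      field_simp
    · show cε * c1 / c6 = c1 / c6 * cos ((1 : ℕ) * (π / (30 * p : ℕ)))
      rw [Nat.cast_one, one_mul, ← hcε]
      ring
    · show (1 / 2 : ℝ) = 1 * cos ((10 * p : ℕ) * (π / (30 * p : ℕ)))
      rw [m10, one_mul]
  · intro j u
    rw [hcosu]
    fin_cases j
    · show c1 / c6 * cos ((u.natAbs : ℕ) * (π / (30 * p : ℕ))) ≠ cε
      intro h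
      apply ex1 hp u.natAbs
      rw [← hc6, ← hcε, ← hc1, ← h]
      field_simp
    · show 1 * cos ((u.natAbs : ℕ) * (π / (30 * p : ℕ))) ≠ cε * c1 / c6
      intro h
      apply ex3 hp ((u.natAbs : ℕ) * (π / (30 * p : ℕ)))
      rw [one_mul] at h
      rw [h, h10, ← hcε, ← mul_div_assoc (cos (11 * (π / 30))), eq_div_iff p6.ne']
      linear_combination (-cε) * hid
    · show cε / c6 * cos ((u.natAbs : ℕ) * (π / (30 * p : ℕ))) ≠ 1 / 2
      intro h
      apply ex2 hp u.natAbs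
      rw [h10, ← hc6, ← hcε, ← h]
      field_simp
  · intro j
    fin_cases j
    · show (2 : ℤ) ∣ 1 - 0 - (1 : ℕ)
      norm_num
    · show (2 : ℤ) ∣ 0 - 1 - (p : ℕ)
      exact ⟨-k - 1, by linarith⟩
    · show (2 : ℤ) ∣ 0 - 1 - (11 * p : ℕ)
      exact ⟨-11 * k - 6, by push_cast; linarith⟩
  · intro j
    fin_cases j
    · show (2 : ℤ) ∣ 1 - 1 - (6 * p : ℕ)
      exact ⟨-3 * p, by push_cast; ring⟩
    · show (2 : ℤ) ∣ 1 - 0 - (1 : ℕ)
      norm_num
    · show (2 : ℤ) ∣ 0 - 0 - (10 * p : ℕ)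
      exact ⟨-5 * p, by push_cast; ring⟩

theorem sporadic {p : ℕ} (hp : Big p) :
    IsSporadic (30 * p) ![1, p, 11 * p] ![6 * p, 1, 10 * p] := by
  have hb := hp.big
  have e1 : ms ![1, p, 11 * p] = ({(1 : ℤ), (p : ℤ), 11 * (p : ℤ)} : Multiset ℤ) := by simp [ms]
  have e2 : ms ![6 * p, 1, 10 * p] = ({6 * (p : ℤ), 1, 10 * (p : ℤ)} : Multiset ℤ) := by simp [ms]
  have hsum : ∀ {a b c a' b' c' : ℤ}, ({a, b, c} : Multiset ℤ) = {a', b', c'} →
      a + b + c = a' + b' + c' := by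
    intro a b c a' b' c' h
    have := congrArg Multiset.sum h
    simp only [Multiset.insert_eq_cons, Multiset.sum_cons, Multiset.sum_singleton] at this
    linarith
  have hmem : ∀ {a b c a' b' c' : ℤ}, ({a, b, c} : Multiset ℤ) = {a', b', c'} →
      (a' = a ∨ a' = b ∨ a' = c) ∧ (b' = a ∨ b' = b ∨ b' = c) ∧ (c' = a ∨ c' = b ∨ c' = c) := by
    intro a b c a' b' c' h
    refine ⟨?_, ?_, ?_⟩
    · have : a' ∈ ({a, b, c} : Multiset ℤ) := by rw [h]; simp
      simpa using this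
    · have : b' ∈ ({a, b, c} : Multiset ℤ) := by rw [h]; simp
      simpa using this
    · have : c' ∈ ({a, b, c} : Multiset ℤ) := by rw [h]; simp
      simpa using this
  rw [IsSporadic, e1, e2]
  refine ⟨fun h => ?_, ?_, ?_⟩
  · have := hsum h
    omega
  · rintro ⟨P, q, R, hP, hq, hR, ⟨h1, h2, h3⟩ | ⟨h1, h2, h3⟩ | ⟨h1, h2, h3⟩ | ⟨h1, h2, h3⟩⟩ <;>
      push_cast at h1
    · have := hsum h2
      omega
    · have := hsum h3
      omega
    · have := hsum h3
      have := hsum h2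
      omega
    · have := (hmem h3).2.1
      omega
  · rintro ⟨P, q, R, hP, hq, hR, ⟨h1, h2, h3⟩ | ⟨h1, h2, h3⟩ | ⟨h1, h2, h3⟩ | ⟨h1, h2, h3⟩⟩ <;>
      push_cast at h1
    · have := hsum h2
      omega
    · have := (hmem h3).1
      omega
    · have := hsum h2
      have := (hmem h2).2.1
      omega
    · have := (hmem h3).2.1
      omega

end Pool.Agent.X177.AS
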